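import Pool.Agent.H64.BTL.Stmts

set_option autoImplicit false

universe u v

namespace Pool.BTL

open Polynomial

theorem EIV_thm : EIVStmt.{v} := by
  intro F _ _ n A hA
  classical
  have hroot : ∀ c ∈ A.charpoly.roots, ∃ m : ℕ, 0 < m ∧ c ^ m = 1 := by
    intro c hc
    have h1 : A.charpoly.eval c = 0 := (Polynomial.mem_roots'.1 hc).2
    rw [Matrix.eval_charpoly] at h1
    obtain ⟨v, hv, hv'⟩ := Matrix.exists_mulVec_eq_zero_iff.2 h1
    refine hA c v hv ?_
    rw [Matrix.sub_mulVec, sub_eq_zero] at hv'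
    rw [← hv']
    ext i
    simp [Matrix.scalar_apply, Matrix.mulVec_diagonal]
  choose! m hm hm' using hroot
  let N : ℕ := ∏ c ∈ A.charpoly.roots.toFinset, m c
  have hN : 0 < N := Finset.prod_pos fun c hc => hm c (Multiset.mem_toFinset.1 hc)
  refine ⟨N, hN, ?_⟩
  have hdvd : ∀ c ∈ A.charpoly.roots, (X - C c : F[X]) ∣ X ^ N - 1 := by
    intro c hc
    rw [Polynomial.dvd_iff_isRoot, Polynomial.IsRoot.def]
    obtain ⟨d, hd⟩ : m c ∣ N := Finset.dvd_prod_of_mem m (Multiset.mem_toFinset.2 hc)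
    simp [hd, pow_mul, hm' c hc]
  have hsplit : A.charpoly = (A.charpoly.roots.map fun c => (X - C c : F[X])).prod :=
    ((IsAlgClosed.splits A.charpoly).eq_prod_roots_of_monic A.charpoly_monic)
  have hcard : A.charpoly.roots.card = n := by
    have h1 := (IsAlgClosed.splits A.charpoly).natDegree_eq_card_roots
    rw [← h1, Matrix.charpoly_natDegree_eq_dim, Fintype.card_fin]
  have hd2 : A.charpoly ∣ (X ^ N - 1) ^ n := by
    have h1 : (A.charpoly.roots.map fun c => (X - C c : F[X])).prod ∣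
        (A.charpoly.roots.map fun _ => (X ^ N - 1 : F[X])).prod :=
      Multiset.prod_dvd_prod_of_dvd _ _ hdvd
    rw [← hsplit, Multiset.map_const', Multiset.prod_replicate, hcard] at h1
    exact h1
  obtain ⟨q, hq⟩ := hd2
  have h2 : aeval A ((X ^ N - 1 : F[X]) ^ n) = 0 := by
    rw [hq, map_mul, Matrix.aeval_self_charpoly, zero_mul]
  simpa using h2

end Pool.BTL
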