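import Pool.Agent.H64.BTL.Stmts

set_option autoImplicit false

universe u v

namespace Pool.BTL

open Polynomial Cardinal

theorem FLD_thm : FLDStmt.{u, v} := by
  intro G F _ _ _ n ρ
  classical
  let s : Set F := Set.range fun p : G × Fin n × Fin n => ρ p.1 p.2.1 p.2.2
  let F₀ : Subfield F := Subfield.closure s
  have hs : s.Countable := Set.countable_range _
  have hF₀ : Countable F₀ := by
    rw [← Cardinal.mk_le_aleph0_iff]
    refine (Subfield.cardinalMk_closure_le_max s).trans (max_le ?_ le_rfl)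
    exact Cardinal.mk_le_aleph0_iff.2 hs.to_subtype
  have hmem : ∀ g i j, ρ g i j ∈ F₀ := fun g i j =>
    Subfield.subset_closure ⟨(g, i, j), rfl⟩
  let ι : Matrix (Fin n) (Fin n) F₀ →+* Matrix (Fin n) (Fin n) F := F₀.subtype.mapMatrix
  have hι : Function.Injective ι := by
    intro M M' h
    ext i j
    exact congrFun (congrFun h i) j
  let r : G → Matrix (Fin n) (Fin n) F₀ := fun g i j => ⟨ρ g i j, hmem g i j⟩
  have hr : ∀ g, ι (r g) = ρ g := fun g => rfl
  let ρ₀ : G →* Matrix (Fin n) (Fin n) F₀ :=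
    { toFun := r
      map_one' := hι (by rw [hr, map_one, map_one])
      map_mul' := fun g h => hι (by rw [map_mul, hr, hr, hr, map_mul]) }
  let κ : Matrix (Fin n) (Fin n) F₀ →+* Matrix (Fin n) (Fin n) (AlgebraicClosure F₀) :=
    (algebraMap F₀ (AlgebraicClosure F₀)).mapMatrix
  have hκ : Function.Injective κ := by
    intro M M' h
    ext i j
    have h1 : algebraMap F₀ (AlgebraicClosure F₀) (M i j) =
        algebraMap F₀ (AlgebraicClosure F₀) (M' i j) := congrFun (congrFun h i) j
    exact congrArg Subtype.val ((algebraMap F₀ (AlgebraicClosure F₀)).injective h1)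
  have hc : Countable (AlgebraicClosure F₀) := by
    rw [← Cardinal.mk_le_aleph0_iff]
    refine (Algebra.IsAlgebraic.cardinalMk_le_max F₀ (AlgebraicClosure F₀)).trans
      (max_le ?_ le_rfl)
    exact Cardinal.mk_le_aleph0_iff.2 hF₀
  refine ⟨AlgebraicClosure F₀, inferInstance, inferInstance, hc,
    (κ : Matrix (Fin n) (Fin n) F₀ →* _).comp ρ₀, ?_⟩
  intro g hg
  have h1 : κ (r g) = κ 1 := by
    rw [map_one]
    exact hg
  rw [← hr, hκ h1, map_one]

end Pool.BTL
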